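import Pool.Agent.Helper83_DPB.All

/-!
MP_e2cf1f_an: a complex Banach space with property (B) that has neither the Grothendieck
property nor the Dunford-Pettis property.
-/

open Filter Topology Set

namespace Pool.Agent.Results.MP_e2cf1f_an.NeitherProperty

/-- There is a complex Banach space X such that

* for every bounded operator T on X and every lam in the topological boundary of the spectrum of
  T, the operator (adjoint of T) minus lam on the dual of X is not injective;
* some weak star convergent sequence in the dual of X does not converge weakly;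
* there are weakly null sequences in X and in the dual of X for which the pairing does not tend
  to zero. -/
theorem result : ∃ (X : Type) (_ : NormedAddCommGroup X) (_ : NormedSpace ℂ X)
    (_ : CompleteSpace X),
    (∀ (T : X →L[ℂ] X) (lam : ℂ), lam ∈ frontier (spectrum ℂ T) →
      ¬ Function.Injective (fun f : X →L[ℂ] ℂ => f.comp T - lam • f)) ∧
    ¬ (∀ (f : ℕ → (X →L[ℂ] ℂ)) (g : X →L[ℂ] ℂ),
      (∀ x, Tendsto (fun n => f n x) atTop (𝓝 (g x))) →
      ∀ xi : (X →L[ℂ] ℂ) →L[ℂ] ℂ, Tendsto (fun n => xi (f n)) atTop (𝓝 (xi g))) ∧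
    ¬ (∀ (x : ℕ → X) (f : ℕ → (X →L[ℂ] ℂ)),
      (∀ g : X →L[ℂ] ℂ, Tendsto (fun n => g (x n)) atTop (𝓝 0)) →
      (∀ xi : (X →L[ℂ] ℂ) →L[ℂ] ℂ, Tendsto (fun n => xi (f n)) atTop (𝓝 0)) →
      Tendsto (fun n => f n (x n)) atTop (𝓝 0)) :=
  Pool.Agent.Helper83_DPB.all

end Pool.Agent.Results.MP_e2cf1f_an.NeitherProperty
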